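import Pool.Agent.Q66.RX.Stm

/-!
# Extension of characters from an open subgroup (part OPE)
-/

set_option autoImplicit false

namespace Pool.Agent.Q285.RX

open Topology Filter Set MeasureTheory
open Pool.Agent.Q66.RX

/-- a root of `z` which is continuous at one -/
noncomputable def rt (n : ℕ) (z : Circle) : Circle := Circle.exp (Complex.arg (z : ℂ) / n)

theorem rt_pow (n : ℕ) (hn : 0 < n) (z : Circle) : rt n z ^ n = z := by
  rw [rt, ← Circle.exp_natCast_mul]
  have h : (n : ℝ) ≠ 0 := by exact_mod_cast hn.ne'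
  rw [mul_div_cancel₀ _ h, Circle.exp_arg]

theorem rt_tendsto (n : ℕ) : Tendsto (rt n) (𝓝 1) (𝓝 1) := by
  have h1 : ContinuousAt (fun z : Circle => Complex.arg (z : ℂ)) 1 := by
    have h2 : ContinuousAt Complex.arg ((1 : Circle) : ℂ) := by
      apply Complex.continuousAt_arg
      rw [Circle.coe_one]
      exact Complex.one_mem_slitPlane
    exact ContinuousAt.comp (f := fun z : Circle => (z : ℂ)) h2
      continuous_subtype_val.continuousAt
  have h3 : ContinuousAt (rt n) 1 :=
    (Circle.exp.continuous.continuousAt).comp (h1.div_const (n : ℝ))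
  have h4 : rt n 1 = 1 := by
    rw [rt, Circle.coe_one, Complex.arg_one, zero_div, Circle.exp_zero]
  have h5 := h3.tendsto
  rwa [h4] at h5

/-- the functions on `Γ` which tend to one at one -/
def DD (Γ : Type) [CommGroup Γ] [TopologicalSpace Γ] : Subgroup (Γ → Circle) where
  carrier := {φ | Tendsto φ (𝓝 1) (𝓝 1)}
  one_mem' := tendsto_const_nhds
  mul_mem' := by
    intro a b ha hb
    have h : Tendsto (fun x => a x * b x) (𝓝 1) (𝓝 (1 * 1)) := Tendsto.mul ha hb
    rw [mul_one] at h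
    exact h
  inv_mem' := by
    intro a ha
    have h : Tendsto (fun x => (a x)⁻¹) (𝓝 1) (𝓝 (1⁻¹)) := Tendsto.inv ha
    rw [inv_one] at h
    exact h

theorem DD_div (Γ : Type) [CommGroup Γ] [TopologicalSpace Γ] (d : DD Γ) (n : ℕ) (hn : 0 < n) :
    ∃ e : DD Γ, e ^ n = d := by
  refine ⟨⟨fun x => rt n ((d : Γ → Circle) x), (rt_tendsto n).comp d.2⟩, ?_⟩
  apply Subtype.ext
  funext x
  exact rt_pow n hn _

theorem t_OPE (hE : S_EXT) : S_OPE := by
  intro G _ _ _ H hH
  -- evaluations
  have hev : ∀ h : H, Tendsto (fun η : PontryaginDual H => η h) (𝓝 1) (𝓝 1) := by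
    intro h
    have hc : Continuous (fun η : PontryaginDual H => η h) :=
      continuous_eval_const (F := ContinuousMonoidHom H Circle) h
    exact hc.tendsto' _ _ rfl
  let f : H →* DD (PontryaginDual H) :=
    { toFun := fun h => ⟨fun η => η h, hev h⟩
      map_one' := by
        apply Subtype.ext
        funext η
        exact map_one η
      map_mul' := fun a b => by
        apply Subtype.ext
        funext η
        exact map_mul η a b }
  obtain ⟨τ, hτ⟩ := hE G (DD (PontryaginDual H)) (DD_div _) H f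
  have hτ' : ∀ (h : H) (η : PontryaginDual H), (τ h : PontryaginDual H → Circle) η = η h := by
    intro h η
    rw [hτ]
    rfl
  have hn : 𝓝 (1 : G) = map (Subtype.val : H → G) (𝓝 (1 : H)) := by
    exact (hH.isOpenEmbedding_subtypeVal.map_nhds_eq (1 : H)).symm
  let ext0 : PontryaginDual H → (G →* Circle) := fun η =>
    { toFun := fun g => (τ g : PontryaginDual H → Circle) η
      map_one' := by rw [map_one]; rfl
      map_mul' := fun a b => by rw [map_mul]; rfl }
  have hcont : ∀ η, Continuous (ext0 η) := by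
    intro η
    apply continuous_of_continuousAt_one
    have h1 : ext0 η 1 = 1 := map_one _
    rw [ContinuousAt, h1, hn, tendsto_map'_iff]
    have h2 : (ext0 η) ∘ (Subtype.val : H → G) = fun h : H => η h := funext fun h => hτ' h η
    rw [h2]
    exact (map_continuous η).tendsto' _ _ (map_one η)
  let ext : PontryaginDual H → PontryaginDual G := fun η =>
    (⟨ext0 η, hcont η⟩ : ContinuousMonoidHom G Circle)
  have hext : ∀ (η : PontryaginDual H) (g : G),
      ext η g = (τ g : PontryaginDual H → Circle) η := fun _ _ => rfl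
  refine ⟨ext, fun η h => hτ' h η, ?_⟩
  have hi := ContinuousMonoidHom.isInducing_toContinuousMap G Circle
  have hi' := ContinuousMonoidHom.isInducing_toContinuousMap H Circle
  refine hi.tendsto_nhds_iff.2 ?_
  rw [ContinuousMap.tendsto_nhds_compactOpen]
  intro K hK U hU hKU
  rcases K.eq_empty_or_nonempty with rfl | ⟨x₀, hx₀⟩
  · exact Eventually.of_forall fun η => mapsTo_empty _ _
  have h1U : (1 : Circle) ∈ U := hKU hx₀
  obtain ⟨V, hV, hVU⟩ : ∃ V ∈ 𝓝 (1 : Circle), ∀ a ∈ V, ∀ b ∈ V, a * b ∈ U :=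
    exists_nhds_one_split (hU.mem_nhds h1U)
  obtain ⟨V', hV'V, hV'o, hV'1⟩ := mem_nhds_iff.1 hV
  -- cover by cosets
  obtain ⟨t, htK, htc⟩ := hK.elim_nhds_subcover (fun x => {y | x⁻¹ * y ∈ H}) (fun x _ => by
    have ho : IsOpen {y | x⁻¹ * y ∈ H} := hH.preimage (continuous_const_mul x⁻¹)
    exact ho.mem_nhds (by
      change x⁻¹ * x ∈ H
      rw [inv_mul_cancel]
      exact H.one_mem))
  have hHc : IsClosed (H : Set G) := H.isClosed_of_isOpen hH
  have hce : ∀ x : G, IsClosedEmbedding (fun h : H => x * (h : G)) := fun x =>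
    (Homeomorph.mulLeft x).isClosedEmbedding.comp hHc.isClosedEmbedding_subtypeVal
  have hev1 : ∀ x ∈ t, ∀ᶠ η in 𝓝 (1 : PontryaginDual H),
      (τ x : PontryaginDual H → Circle) η ∈ V' ∧ ∀ h : H, x * (h : G) ∈ K → η h ∈ V' := by
    intro x _
    have e1 : ∀ᶠ η in 𝓝 (1 : PontryaginDual H), (τ x : PontryaginDual H → Circle) η ∈ V' :=
      (τ x).2 (hV'o.mem_nhds hV'1)
    have hc := (hce x).isCompact_preimage hK
    have e2 := ContinuousMap.tendsto_nhds_compactOpen.1
      ((hi'.tendsto_nhds_iff (f := fun η : ContinuousMonoidHom H Circle => η)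
        (l := 𝓝 (1 : ContinuousMonoidHom H Circle)) (y := 1)).1 tendsto_id) _ hc V' hV'o
        (fun h _ => hV'1)
    filter_upwards [e1, e2] with η h1 h2
    exact ⟨h1, fun h hh => h2 hh⟩
  have hall : ∀ᶠ η in 𝓝 (1 : PontryaginDual H), ∀ x ∈ t,
      (τ x : PontryaginDual H → Circle) η ∈ V' ∧ ∀ h : H, x * (h : G) ∈ K → η h ∈ V' :=
    (Finset.eventually_all t).2 hev1
  filter_upwards [hall] with η hη
  intro y hy
  obtain ⟨x, hx, hxy⟩ := mem_iUnion₂.1 (htc hy)
  have hxy' : x⁻¹ * y ∈ H := hxy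
  have h1 := hη x hx
  have h2 := h1.2 ⟨x⁻¹ * y, hxy'⟩ (by
    change x * (x⁻¹ * y) ∈ K
    rwa [mul_inv_cancel_left])
  have h3 : ext η y = ext η x * ext η (x⁻¹ * y) := by
    rw [← map_mul, mul_inv_cancel_left]
  have h4 : ext η (x⁻¹ * y) = η ⟨x⁻¹ * y, hxy'⟩ := hτ' ⟨x⁻¹ * y, hxy'⟩ η
  change ext η y ∈ U
  rw [h3, h4]
  exact hVU _ (hV'V h1.1) _ (hV'V h2)

end Pool.Agent.Q285.RX
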